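import Pool.Agent.helper73.ASU.Spec

set_option autoImplicit false

namespace Pool.Agent.ASU

open Finset

theorem MOB_le {p : ℕ} [Fact p.Prime] (χ : MulChar (ZMod p) ℂ) (z : ZMod p) : ‖χ z‖ ≤ 1 :=
  DirichletCharacter.norm_le_one χ z

theorem MOB_one {p : ℕ} [Fact p.Prime] (χ : MulChar (ZMod p) ℂ) (z : ZMod p) (hz : z ≠ 0) : ‖χ z‖ = 1 :=
  DirichletCharacter.unit_norm_eq_one χ (Units.mk0 z hz)

theorem MOB : MOB_stmt := by
  intro p _ χ A B a b c d _ hA hB w hw
  refine ⟨fun y => if c * (y : ZMod p) + d = 0 then 0 else w y * (χ (a * d - b * c) * χ (c * (y : ZMod p) + d)⁻¹), fun y => ?_, ?_⟩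
  · by_cases h : c * (y : ZMod p) + d = 0
    · simp only [h, if_true, norm_zero]
      exact zero_le_one
    · simp only [h, if_false]
      rw [norm_mul, norm_mul]
      exact mul_le_one₀ (hw y) (mul_nonneg (norm_nonneg _) (norm_nonneg _)) (mul_le_one₀ (MOB_le χ _) (norm_nonneg _) (MOB_le χ _))
  · unfold BB
    refine Finset.sum_congr rfl fun x hx => ?_
    have h1 : ∑ y ∈ B, w y * χ ((a * (x : ZMod p) + b) / (c * (x : ZMod p) + d) - (a * (y : ZMod p) + b) / (c * (y : ZMod p) + d)) =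
        χ (c * (x : ZMod p) + d)⁻¹ * ∑ y ∈ B, (if c * (y : ZMod p) + d = 0 then 0 else w y * (χ (a * d - b * c) * χ (c * (y : ZMod p) + d)⁻¹)) * CM χ x y := by
      rw [Finset.mul_sum]
      refine Finset.sum_congr rfl fun y hy => ?_
      rw [if_neg (hB y hy)]
      have h2 : (a * (x : ZMod p) + b) / (c * (x : ZMod p) + d) - (a * (y : ZMod p) + b) / (c * (y : ZMod p) + d) =
          (c * (x : ZMod p) + d)⁻¹ * ((a * d - b * c) * (c * (y : ZMod p) + d)⁻¹ * ((x : ZMod p) - y)) := by
        have hx' := hA x hx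
        have hy' := hB y hy
        have hk : (a * (x : ZMod p) + b) * (c * (y : ZMod p) + d) - (c * (x : ZMod p) + d) * (a * (y : ZMod p) + b) =
            (a * d - b * c) * ((x : ZMod p) - y) := by ring
        rw [div_sub_div _ _ hx' hy', hk, div_eq_mul_inv, mul_inv]
        ring
      rw [h2, map_mul, map_mul, map_mul]
      unfold CM
      push_cast
      ring
    rw [h1, norm_mul, MOB_one χ _ (inv_ne_zero (hA x hx)), one_mul]

end Pool.Agent.ASU
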